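import Pool.Agent.BlindAE.Meas

/-!
Blind robots on lattice mazes whose origin component is a path (the set `𝒩` of the problem).

For every probability measure on the mazes there is one algorithm which solves almost every maze
of `𝒩`. The mazes are given as a random maze: a probability space `Ω` and a board `M ω`, an origin
`o ω` and a destination `d ω` for each `ω ∈ Ω`, such that the presence of each edge and the values
of `o` and `d` are events.

Method. The share `u L x` of the words of length `L` with which the lazy symmetric walk on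
`{0, 1, 2, ...}` misses `0` from `x` decreases to a bounded function `h` with `h 0 = 0` and
`2 h x = h (x - 1) + h (x + 1)`, so to `0`. On a path at distance `x` from the destination at most
the share `u L x` of the words of length `L` miss it. So, given a word and `j`, the mean over the
continuations of a suitable length `L` of the measure of the mazes which are at distance at most `j`
and are not solved is small, and the letters of a good continuation are chosen one after the
other. The algorithm is the union of the words for `j = 0, 1, 2, ...`.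
-/

namespace Pool.Agent.Results.MP_ede832_co.AlmostEveryMaze

open Pool.Agent.BlindPath Pool.Agent.BlindAE MeasureTheory Filter Topology

/-- For every random maze `(M ω, o ω, d ω)` there is one algorithm `A` such that for almost every
`ω` the following holds: if the component of `o ω` in the board `M ω` is a simple path which
contains `d ω`, then `A` solves the maze. -/
theorem result {Ω : Type} [MeasurableSpace Ω] (μ : Measure Ω) [IsProbabilityMeasure μ]
    (M : Ω → SimpleGraph V) (o d : Ω → V)
    (hM : ∀ u v, MeasurableSet {ω | (M ω).Adj u v})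
    (ho : ∀ v, MeasurableSet {ω | o ω = v}) (hd : ∀ v, MeasurableSet {ω | d ω = v}) :
    ∃ A : ℕ → Dir, ∀ᵐ ω ∂μ, Board (M ω) →
      (∃ (I : Set ℤ) (γ : ℤ → V), IsPath (M ω) (o ω) I γ ∧ ∃ t ∈ I, γ t = d ω) →
      Solves A (M ω) (o ω) (d ω) := by
  have hpos : ∀ j : ℕ, (0 : ℝ) < 1 / ((j : ℝ) + 1) := fun j => by positivity
  choose f hf using fun (j : ℕ) (W : List Dir) => stage μ hM ho hd W j (hpos j)
  set W : ℕ → List Dir := fun j => Nat.rec [] (fun j W => W ++ f j W) j with hW
  have hW1 : ∀ j, W (j + 1) = W j ++ f j (W j) := fun j => rfl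
  obtain ⟨A, hA⟩ := exists_algo W fun j => ⟨f j (W j), (hf j (W j)).1, hW1 j⟩
  refine ⟨A, ?_⟩
  -- the bad set of each distance is a null set
  have hnull : ∀ D : ℕ, μ ({ω | ∀ j, Miss (M ω) (d ω) (o ω) (W j)} ∩ Tame M o d D) = 0 := by
    intro D
    have h1 : ∀ j : ℕ, D ≤ j →
        μ ({ω | ∀ j, Miss (M ω) (d ω) (o ω) (W j)} ∩ Tame M o d D) ≤
          ENNReal.ofReal (1 / ((j : ℝ) + 1)) := by
      intro j hj
      refine le_trans (measure_mono ?_) (hf j (W j)).2
      rintro ω ⟨h1, h2⟩
      refine ⟨?_, tame_mono M o d hj h2⟩
      show Miss (M ω) (d ω) (o ω) (W j ++ f j (W j))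
      rw [← hW1]
      exact h1 (j + 1)
    have h2 : Tendsto (fun j : ℕ => ENNReal.ofReal (1 / ((j : ℝ) + 1))) atTop (𝓝 0) := by
      have := ENNReal.tendsto_ofReal (tendsto_one_div_add_atTop_nhds_zero_nat (𝕜 := ℝ))
      rwa [ENNReal.ofReal_zero] at this
    exact le_antisymm (ge_of_tendsto h2 ((eventually_ge_atTop D).mono h1)) zero_le
  have hall : μ (⋃ D : ℕ, {ω | ∀ j, Miss (M ω) (d ω) (o ω) (W j)} ∩ Tame M o d D) = 0 :=
    measure_iUnion_null hnull
  rw [ae_iff]
  refine measure_mono_null ?_ hall
  intro ω hω
  simp only [Set.mem_setOf_eq, Classical.not_imp] at hω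
  obtain ⟨hB, ⟨I, γ, hP, t, ht, hdt⟩, hns⟩ := hω
  refine Set.mem_iUnion.2 ⟨t.natAbs, fun j => hA _ _ _ hns j, fun W' L => ?_⟩
  rw [← hdt]
  exact h_le hB hP ht W' L

end Pool.Agent.Results.MP_ede832_co.AlmostEveryMaze
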