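import Pool.Agent.BlindPath.Hopf

/-!
Blind robots on lattice mazes whose origin component is a path (the set `𝒩` of the problem).

There is one algorithm which solves every maze of `𝒩` whose path, cut at the destination, lies in
a strip, or has few vertices on every row or on every column, or, most generally, whose direction
does not make many large turns alternately to the left and to the right. Few and many are measured
by an unbounded function of the distance from the origin. No bound on the strip or on the turning
is known to the algorithm.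

Method. The path is described by the cumulated turning of its edges. Long words built from runs of
one letter move the robot to the next extremal vertical run (cap), and on the sequence of caps the
robot behaves like a robot on a line with labels. One passes from the caps to the label changes,
which lowers the number of alternating changes of a given size; the last case, labels which
change monotonically except for a bounded number of alternations, is solved by a universal word.
That strips have bounded turning is a discrete form of the rotation argument of Hopf.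
-/

namespace Pool.Agent.Results.MP_ede832_co.TameAtInfinity

open Pool.Agent.BlindPath Filter

/-- There are one algorithm `A` and one function `φ` tending to infinity, such that `A` solves
every maze `(M, o, γ t)` whose origin component is a simple path `γ`, provided that the part `J` of
the path up to the destination (`J = upTo I t`) satisfies one of the following conditions.
(1) For infinitely many `n`, the part of `J` within distance `n` of `o` does not make `φ n`
successive total turns, alternately left and right, each of at least `φ n` quarter turns.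
(2) For infinitely many `n`, every row contains at most `φ n` vertices of this part.
(3) The same for columns.
(4) `J` lies in some strip `|a x + b y| ≤ c`. -/
theorem result : ∃ (A : ℕ → Dir) (φ : ℕ → ℕ), Monotone φ ∧ Tendsto φ atTop atTop ∧
    ∀ (M : SimpleGraph V) (o : V) (I : Set ℤ) (γ : ℤ → V) (t : ℤ),
      Board M → IsPath M o I γ → t ∈ I →
      ((∃ᶠ n : ℕ in atTop, ¬ Alternates (upTo I t) γ n (φ n) (φ n)) ∨
       (∃ᶠ n : ℕ in atTop, ∀ y : ℤ,
          {i : ℤ | i ∈ upTo I t ∧ |i| ≤ (n : ℤ) ∧ (γ i).2 = y}.ncard ≤ φ n) ∨
       (∃ᶠ n : ℕ in atTop, ∀ x : ℤ,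
          {i : ℤ | i ∈ upTo I t ∧ |i| ≤ (n : ℤ) ∧ (γ i).1 = x}.ncard ≤ φ n) ∨
       (∃ a b c : ℝ, (a ≠ 0 ∨ b ≠ 0) ∧ ∀ i ∈ upTo I t, |a * (γ i).1 + b * (γ i).2| ≤ c)) →
      Solves A M o (γ t) := by
  obtain ⟨A, φ, h1, h2, h3⟩ := maze_solve
  have hφ : Tendsto (fun n => φ n / 8) atTop atTop := by
    rw [tendsto_atTop_atTop] at h2 ⊢
    intro b
    obtain ⟨i, hi⟩ := h2 (8 * b)
    refine ⟨i, fun n hn => ?_⟩
    have := hi n hn
    omega
  refine ⟨A, fun n => φ n / 8, fun n n' hn => Nat.div_le_div_right (h1 hn), hφ, ?_⟩
  intro M o I γ t hM hP ht hcond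
  apply h3 M o I γ t hM hP ht
  have hJ : (upTo I t).OrdConnected := upTo_ordConnected hP.interval t
  have hJI : upTo I t ⊆ I := fun i hi => hi.1
  have hinj : Set.InjOn γ (upTo I t) := hP.inj.mono hJI
  have hrow : (∃ᶠ n : ℕ in atTop, ∀ y : ℤ,
      {i : ℤ | i ∈ upTo I t ∧ |i| ≤ (n : ℤ) ∧ (γ i).2 = y}.ncard ≤ φ n / 8) →
      ∃ᶠ n : ℕ in atTop, ¬ Alternates (upTo I t) γ n (φ n) (φ n) := by
    intro h
    refine (h.and_eventually (hφ.eventually_ge_atTop 1)).mono ?_
    rintro n ⟨hn1, hn2⟩
    exact not_alternates hM hP (c := Prod.snd) (fun _ _ => rfl) (r := 0)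
      (fun v hv hs => sec_snd hv hs) hJ hJI hn1 (by omega) (by omega)
  have hcol : (∃ᶠ n : ℕ in atTop, ∀ x : ℤ,
      {i : ℤ | i ∈ upTo I t ∧ |i| ≤ (n : ℤ) ∧ (γ i).1 = x}.ncard ≤ φ n / 8) →
      ∃ᶠ n : ℕ in atTop, ¬ Alternates (upTo I t) γ n (φ n) (φ n) := by
    intro h
    refine (h.and_eventually (hφ.eventually_ge_atTop 1)).mono ?_
    rintro n ⟨hn1, hn2⟩
    exact not_alternates hM hP (c := Prod.fst) (fun _ _ => rfl) (r := 2)
      (fun v hv hs => sec_fst hv hs) hJ hJI hn1 (by omega) (by omega)
  rcases hcond with h | h | h | ⟨a, b, c, hab, h⟩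
  · refine h.mono fun n hn hA => hn ?_
    obtain ⟨s, x, g1, g2, g3⟩ := hA
    have hle : φ n / 8 ≤ φ n := Nat.div_le_self (φ n) 8
    refine ⟨s, x, g1, fun i hi => g2 i (hi.trans hle), fun i hi => ?_⟩
    obtain ⟨g4, g5⟩ := g3 i (lt_of_lt_of_le hi hle)
    refine ⟨g4, le_trans ?_ g5⟩
    exact_mod_cast hle
  · exact hrow h
  · exact hcol h
  · rcases hab with ha | hb
    · apply hrow
      apply Eventually.frequently
      filter_upwards [hφ.eventually_ge_atTop (⌈2 * c / |a|⌉₊ + 1)] with n hn y
      exact (strip_row ha hinj h n y).trans hn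
    · apply hcol
      apply Eventually.frequently
      filter_upwards [hφ.eventually_ge_atTop (⌈2 * c / |b|⌉₊ + 1)] with n hn x
      exact (strip_col hb hinj h n x).trans hn

end Pool.Agent.Results.MP_ede832_co.TameAtInfinity
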