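import Pool.Agent.BlindFSA.TimeI

/-!
A lower bound for the time which an algorithm needs on lattice mazes whose origin component is a
path (the set `𝒩` of the problem).

Method. On the boustrophedon path of width `L` the first coordinate of the robot is the walk
(number of letters `E` minus number of letters `W`) reflected in `[0, L]`, and each new row costs
a crossing of `[0, L]`. Running the reflected walks of widths `L` and `L + 1` together, their
difference is `0` or `1` and changes exactly once per crossing of `[0, L + 1]`, and each change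
uses a letter which is blocked for the width `L` and not for the width `L + 1`. Hence the number of
horizontal letters is at least the sum over all widths of the numbers of crossings.
-/

namespace Pool.Agent.Results.MP_ede832_co.TimeLowerBound

open Pool.Agent.BlindPath Pool.Agent.BlindFSA

lemma floor_ge {D m : ℕ} (hm : 0 < m) : ((D : ℝ) + 1) / m - 1 ≤ ((D : ℤ) / (m : ℤ) : ℤ) := by
  have h1 : (D : ℤ) < m * ((D : ℤ) / (m : ℤ)) + m := by
    have h2 := Int.mul_ediv_add_emod (D : ℤ) (m : ℤ)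
    have h3 := Int.emod_lt_of_pos (D : ℤ) (show (0 : ℤ) < m by omega)
    omega
  have h2 : (D : ℤ) + 1 ≤ m * ((D : ℤ) / (m : ℤ)) + m := h1
  have h3 : ((D : ℝ) + 1) ≤ m * (((D : ℤ) / (m : ℤ) : ℤ) : ℝ) + m := by exact_mod_cast h2
  have hm' : (0 : ℝ) < m := by exact_mod_cast hm
  rw [sub_le_iff_le_add, div_le_iff₀ hm']
  linarith

/-- For every algorithm `A`, every distance `D` and every integer interval `I` which contains `0`
and `D` (finite, one-way infinite or two-way infinite) there is a maze whose origin component is a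
simple path with index set `I`, with the origin at `0` and the destination at `D`, which `A` does
not solve in fewer than `D log D - 2 D` steps. -/
theorem result (A : ℕ → Dir) (D : ℕ) (I : Set ℤ) (hI : I.OrdConnected) (h0 : (0 : ℤ) ∈ I)
    (hD : (D : ℤ) ∈ I) : ∃ (M : SimpleGraph V) (o : V) (γ : ℤ → V),
    Board M ∧ IsPath M o I γ ∧
    ∀ n : ℕ, (n : ℝ) < D * Real.log D - 2 * D → pos M o A n ≠ γ D := by
  by_contra hcon
  push Not at hcon
  have key : ∀ L : ℕ, ∃ n : ℕ, (n : ℝ) < D * Real.log D - 2 * D ∧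
      (D : ℤ) / ((L + 2 : ℕ) : ℤ) ≤ cr ((L : ℤ) + 1) A n := by
    intro L
    have hL : (1 : ℤ) ≤ (L : ℤ) + 1 := by omega
    have hP := partBoard_isPath (bst_inj hL) hI h0
    obtain ⟨n, hn, hpos⟩ := hcon (partBoard (bst ((L : ℤ) + 1)) (bst_inj hL) I)
      (bst ((L : ℤ) + 1) 0) (bst ((L : ℤ) + 1)) (partBoard_board (bst_inj hL) I (bst_step hL)) hP
    refine ⟨n, hn, ?_⟩
    rw [pos_wrun hP] at hpos
    have h1 := crossings hL hI h0 A (bst_inj hL hpos)
    have h2 : ((L + 2 : ℕ) : ℤ) = (L : ℤ) + 1 + 1 := by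
      push_cast
      ring
    rwa [h2]
  choose f hf hf' using key
  rcases Nat.eq_zero_or_pos D with hD0 | hD0
  · subst hD0
    have := hf 0
    simp at this
    have h0 : (0 : ℝ) ≤ f 0 := Nat.cast_nonneg _
    linarith
  obtain ⟨k, rfl⟩ : ∃ k, D = k + 1 := ⟨D - 1, by omega⟩
  set N := (Finset.range (k + 1)).sup f with hN
  have hNlt : (N : ℝ) < ((k + 1 : ℕ) : ℝ) * Real.log ((k + 1 : ℕ) : ℝ) - 2 * ((k + 1 : ℕ) : ℝ) := by
    obtain ⟨L, -, hL⟩ := Finset.exists_mem_eq_sup (Finset.range (k + 1)) ⟨0, by simp⟩ f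
    rw [hN, hL]
    exact hf L
  have hsum : (∑ L ∈ Finset.range k, (((k + 1 : ℕ) : ℤ) / ((L + 2 : ℕ) : ℤ)) : ℤ) ≤ N := by
    refine le_trans (Finset.sum_le_sum fun L hL => ?_) (sum_cr_le A N k)
    refine (hf' L).trans (cr_mono _ A (Finset.le_sup (f := f) ?_))
    rw [Finset.mem_range] at hL ⊢
    omega
  have hsum' : (∑ L ∈ Finset.range k, ((((k + 1 : ℕ) : ℝ) + 1) / ((L + 2 : ℕ) : ℝ) - 1)) ≤ N := by
    have h1 : ((∑ L ∈ Finset.range k, (((k + 1 : ℕ) : ℤ) / ((L + 2 : ℕ) : ℤ)) : ℤ) : ℝ) ≤ N := by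
      exact_mod_cast hsum
    rw [Int.cast_sum] at h1
    exact (Finset.sum_le_sum fun L _ => floor_ge (D := k + 1) (m := L + 2) (by omega)).trans h1
  have hH := log_add_one_le_harmonic (k + 1)
  have hharm : ((harmonic (k + 1) : ℚ) : ℝ) = ∑ L ∈ Finset.range k, (((L + 2 : ℕ) : ℝ))⁻¹ + 1 := by
    rw [harmonic, Finset.sum_range_succ']
    push_cast
    congr 1
    · refine Finset.sum_congr rfl fun L _ => ?_
      congr 1
      ring
    · simp
  have hS : ∑ L ∈ Finset.range k, ((((k + 1 : ℕ) : ℝ) + 1) / ((L + 2 : ℕ) : ℝ) - 1) =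
      (((k + 1 : ℕ) : ℝ) + 1) * (((harmonic (k + 1) : ℚ) : ℝ) - 1) - k := by
    rw [hharm, Finset.sum_sub_distrib, add_sub_cancel_right, Finset.mul_sum]
    simp [div_eq_mul_inv]
  rw [hS] at hsum'
  have hlog : Real.log ((k + 1 : ℕ) : ℝ) ≤ ((harmonic (k + 1) : ℚ) : ℝ) := by
    refine le_trans (Real.log_le_log (by positivity) ?_) hH
    push_cast
    linarith
  have hharm1 : (1 : ℝ) ≤ ((harmonic (k + 1) : ℚ) : ℝ) := by
    rw [hharm]
    have : (0 : ℝ) ≤ ∑ L ∈ Finset.range k, (((L + 2 : ℕ) : ℝ))⁻¹ :=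
      Finset.sum_nonneg fun _ _ => by positivity
    linarith
  have hk : (0 : ℝ) ≤ (k : ℝ) := Nat.cast_nonneg k
  push_cast at *
  nlinarith [mul_le_mul_of_nonneg_left hlog (show (0 : ℝ) ≤ (k : ℝ) + 1 by linarith)]

end Pool.Agent.Results.MP_ede832_co.TimeLowerBound
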