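import Pool.Agent.Hhelper34.Maze.Main
import Pool.Agent.Hhelper34.Maze.Zero

/-!
Blind robots on lattice mazes whose origin component is a path (the set `𝒩` of the problem): the
uniform and the finite form of the question, and the shape of the set of all solutions.

A maze of `𝒩` is given by `M`, `o` with `Board M` and `IsPath M o I γ`; the destination is `γ t`
with `t ∈ I`, and `|t|` is the path distance from the origin to the destination.

Method. If the first `n` instructions of `A` fail for a maze at path distance at most `D`, for
every `n`, then a limit of these mazes, moved to the origin `0`, along an ultrafilter is a maze of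
`𝒩` which `A` does not solve. Before time `N` the robot does not see the parts of the path at path
distance more than `N`, so it is enough to treat finite paths. Words for all `D` are concatenated:
after a word of length `l` the robot is on the path at path distance at most `D + l` from the
destination.
-/

set_option autoImplicit false

namespace Pool.Agent.Results.MP_ede832_co.UniformTime

open Pool.Agent.BlindPath

/-- (a) An algorithm `A` solves all mazes of `𝒩` if and only if for every `D` there is a time `T`
such that `A` solves within `T` steps all mazes whose origin component is a finite simple path and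
whose destination is at path distance at most `D`. (b) These are equivalent: some algorithm solves
all mazes of `𝒩`; some algorithm solves all mazes of `𝒩` within `T d` steps, `d` the path distance
of the destination; for every `D` there are an algorithm and a time `T` such that within `T` steps
all mazes are solved whose origin component is a finite simple path and whose destination is at path
distance at most `D`. (c) The set of the algorithms which solve all mazes of `𝒩` is a `Gδ` set in
the product topology (`Dir` discrete), and it is empty or dense. -/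
theorem result :
    (∀ A : ℕ → Dir,
      (∀ (M : SimpleGraph V) (o : V) (I : Set ℤ) (γ : ℤ → V), Board M → IsPath M o I γ →
        ∀ t ∈ I, Solves A M o (γ t)) ↔
      ∀ D : ℕ, ∃ T : ℕ, ∀ (M : SimpleGraph V) (o : V) (I : Set ℤ) (γ : ℤ → V), Board M →
        IsPath M o I γ → I.Finite → ∀ t ∈ I, |t| ≤ (D : ℤ) → ∃ n ≤ T, pos M o A n = γ t) ∧
    [∃ A : ℕ → Dir, ∀ (M : SimpleGraph V) (o : V) (I : Set ℤ) (γ : ℤ → V), Board M →
        IsPath M o I γ → ∀ t ∈ I, Solves A M o (γ t),
      ∃ (A : ℕ → Dir) (T : ℕ → ℕ), ∀ (M : SimpleGraph V) (o : V) (I : Set ℤ) (γ : ℤ → V),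
        Board M → IsPath M o I γ → ∀ t ∈ I, ∃ n ≤ T t.natAbs, pos M o A n = γ t,
      ∀ D : ℕ, ∃ (A : ℕ → Dir) (T : ℕ), ∀ (M : SimpleGraph V) (o : V) (I : Set ℤ) (γ : ℤ → V),
        Board M → IsPath M o I γ → I.Finite → ∀ t ∈ I, |t| ≤ (D : ℤ) →
          ∃ n ≤ T, pos M o A n = γ t].TFAE ∧
    (letI : TopologicalSpace Dir := ⊥
     IsGδ {A : ℕ → Dir | ∀ (M : SimpleGraph V) (o : V) (I : Set ℤ) (γ : ℤ → V), Board M →
        IsPath M o I γ → ∀ t ∈ I, Solves A M o (γ t)} ∧
      ({A : ℕ → Dir | ∀ (M : SimpleGraph V) (o : V) (I : Set ℤ) (γ : ℤ → V), Board M →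
        IsPath M o I γ → ∀ t ∈ I, Solves A M o (γ t)}.Nonempty →
      Dense {A : ℕ → Dir | ∀ (M : SimpleGraph V) (o : V) (I : Set ℤ) (γ : ℤ → V), Board M →
        IsPath M o I γ → ∀ t ∈ I, Solves A M o (γ t)})) :=
  ⟨Pool.Agent.Hhelper34.Maze.one, Pool.Agent.Hhelper34.Maze.two,
    Pool.Agent.Hhelper34.Maze.gdelta_dense⟩

end Pool.Agent.Results.MP_ede832_co.UniformTime
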